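import Pool.Agent.Dom94.RedL
import Pool.Agent.Dom94.PCert
import Pool.Agent.Dom94.Dq8

/-! MP_3fbd8d_co: `⌊(7 n + 16) / 20⌋` is a sharp upper bound for the domination number of
connected cubic graphs of order `n`. -/

namespace Pool.Agent.Results.MP_3fbd8d_co.SharpBound

open Pool.Agent.H94.Dom

/-- `g` is a sharp upper bound on the domination number of connected cubic graphs in terms of
the order: `f n ≤ g n` for all even `n ≥ 4`, with equality for infinitely many even `n ≥ 4`. -/
def IsSharp (g : ℕ → ℕ) : Prop :=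
  (∀ n : ℕ, Even n → 4 ≤ n → f n ≤ g n) ∧ {n : ℕ | Even n ∧ 4 ≤ n ∧ f n = g n}.Infinite

theorem plain4 (V : Type) [DecidableEq V] : Plain4 V := by
  intro H A h2 hC _ hd hnc h7 h10
  exact (P.plainP (Finset.card_pos.1 (by omega)) hd hnc hC h7 h10).full4

/-- Every connected cubic graph of order `n` has domination number at most `⌊(7 n + 16) / 20⌋`,
and this bound is attained for all positive multiples of twenty. -/
theorem result :
    (∀ (n : ℕ) (G : SimpleGraph (Fin n)), G.Connected → IsCubic G →
      domNum G ≤ (7 * n + 16) / 20) ∧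
    (∀ k : ℕ, 1 ≤ k → f (20 * k) = 7 * k) ∧
    IsSharp (fun n => (7 * n + 16) / 20) := by
  obtain ⟨h1, h2⟩ := final (fun n => decLeaf_of (plain4 (Fin n)))
    (fun n => decCubic_of (plain4 (Fin n)))
  refine ⟨fun n G hG hc => (le_f n G hG hc).trans (h1 n), fun k hk => (h2 k hk).2,
    fun n _ _ => h1 n, ?_⟩
  refine Set.infinite_of_injective_forall_mem (f := fun k : ℕ => 20 * (k + 1)) ?_ ?_
  · intro a b hab
    simp only at hab
    omega
  · intro k
    refine ⟨⟨10 * (k + 1), by ring⟩, by omega, ?_⟩
    exact (h2 (k + 1) (by omega)).1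

end Pool.Agent.Results.MP_3fbd8d_co.SharpBound
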